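import Pool.Statements.S08275
import Pool.Agent.H57.Lonc.Final

set_option autoImplicit false
open Pool Pool.MP_3e31c9_co

namespace Pool.Agent.S08275

/-- For every finite poset P there is N such that for all n ≥ N with ∣P∣ dividing 2^n − 2, the nonempty proper subsets of an n-set, ordered by inclusion, split into disjoint induced copies of P. -/
theorem result :
    ∀ (α : Type) [Fintype α] [PartialOrder α],
      ∃ N : ℕ, ∀ n : ℕ, N ≤ n → Fintype.card α ∣ 2 ^ n - 2 →
        ∃ (k : ℕ) (e : Fin k → α → Finset (Fin n)),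
          (∀ (i : Fin k) (a b : α), e i a ≤ e i b ↔ a ≤ b) ∧
          (∀ (i : Fin k) (a : α), e i a ≠ ∅ ∧ e i a ≠ Finset.univ) ∧
          (∀ s : Finset (Fin n), s ≠ ∅ → s ≠ Finset.univ →
            ∃! p : Fin k × α, e p.1 p.2 = s) := by
  exact Pool.Agent.H57.Lonc.main_theorem

end Pool.Agent.S08275
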