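import Pool.Statements.S08819
import Pool.Agent.H60.Fin

set_option autoImplicit false
open SimpleGraph
open Pool Pool.MP_563ce7_co

namespace Pool.Agent.S08819

/-- For every q ≥ 8 there is a k such that every finite graph in which each set of at most q vertices contains at most q−2 induced P4s has clique-width at most k, i.e. can be built by a k-label expression. -/
theorem result :
    ∀ q : ℕ, 8 ≤ q → ∃ k : ℕ, ∀ (V : Type) [Fintype V] (G : SimpleGraph V),
      (∀ S : Finset V, S.card ≤ q →
        {A : Finset V | A ⊆ S ∧ A.card = 4 ∧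
            Nonempty (G.induce (A : Set V) ≃g SimpleGraph.pathGraph 4)}.ncard ≤ q - 2) →
      ∃ l : V → Fin k, ∀ P : ∀ W : Type, SimpleGraph W → (W → Fin k) → Prop,
        P PEmpty ⊥ PEmpty.elim →
        (∀ i : Fin k, P Unit ⊥ (fun _ => i)) →
        (∀ (W₁ W₂ : Type) (G₁ : SimpleGraph W₁) (G₂ : SimpleGraph W₂)
            (l₁ : W₁ → Fin k) (l₂ : W₂ → Fin k),
            P W₁ G₁ l₁ → P W₂ G₂ l₂ →
            P (W₁ ⊕ W₂)
              (G₁.map Function.Embedding.inl ⊔ G₂.map Function.Embedding.inr)
              (Sum.elim l₁ l₂)) →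
        (∀ (W W' : Type) (H : SimpleGraph W) (l' : W → Fin k) (e : W ≃ W'),
            P W H l' → P W' (H.map e.toEmbedding) (l' ∘ e.symm)) →
        (∀ (W : Type) (H : SimpleGraph W) (l' : W → Fin k) (i j : Fin k),
            P W H l' → P W H (fun x => if l' x = i then j else l' x)) →
        (∀ (W : Type) (H : SimpleGraph W) (l' : W → Fin k) (i j : Fin k), i ≠ j →
            P W H l' →
            P W (H ⊔ SimpleGraph.fromRel (fun x y => l' x = i ∧ l' y = j)) l') →
        P V G l := by
  intro q hq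
  obtain ⟨K, hK⟩ := Pool.Agent.H60.td_all q hq
  refine ⟨3 * (K + 1), fun V _ G hS => ?_⟩
  have hF := Pool.Agent.H60.few_of hS
  by_cases hV : Nonempty V
  · obtain ⟨l, _, _, W, G', m, hb, e, he⟩ := Pool.Agent.H60.gb_of_td
      (hK V G hF Finset.univ Finset.univ_nonempty)
    let f : W ≃ V := e.symm.toEquiv.trans ⟨fun x => x.1, fun x => ⟨x, by simp⟩, fun _ => rfl,
      fun _ => rfl⟩
    refine ⟨m ∘ f.symm, fun P _ p1 p2 p3 p4 p5 => ?_⟩
    have h1 : P W G' m := Pool.Agent.H60.built P p1 p2 p4 p5 hb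
    have h2 := p3 W V G' m f h1
    have h3 : G'.map f.toEmbedding = G := by
      ext x y
      constructor
      · rintro ⟨_, u, v, huv, rfl, rfl⟩
        have h4 := e.symm.map_adj_iff.2 huv
        exact h4
      · intro hxy
        refine ⟨hxy.ne, f.symm x, f.symm y, ?_, by simp, by simp⟩
        have h5 : G'.Adj (e ⟨x, by simp⟩) (e ⟨y, by simp⟩) := by
          rw [e.map_adj_iff]; simpa using hxy
        exact h5
    rw [h3] at h2
    exact h2
  · have hV' : IsEmpty V := not_nonempty_iff.1 hV
    refine ⟨fun v => (hV'.false v).elim, fun P p0 _ _ p3 _ _ => ?_⟩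
    have h2 := p3 PEmpty V ⊥ PEmpty.elim (Equiv.equivOfIsEmpty PEmpty V) p0
    have h3 : (⊥ : SimpleGraph PEmpty).map (Equiv.equivOfIsEmpty PEmpty V).toEmbedding = G := by
      ext x; exact (hV'.false x).elim
    rw [h3] at h2
    have h4 : PEmpty.elim ∘ (Equiv.equivOfIsEmpty PEmpty V).symm =
        (fun v => (hV'.false v).elim : V → Fin (3 * (K + 1))) := by
      funext v; exact (hV'.false v).elim
    rw [← h4]
    exact h2

end Pool.Agent.S08819
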